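import Pool.Agent.Run7.h338.FF.Iface

/-! Piece COVER of project FF (helper338), by helper926. -/

set_option autoImplicit false

namespace Run7.h926.FF

open Pool.Agent.Run7.h338.FF

variable {G : Type} [Group G] [Fintype G] [DecidableEq G]

theorem sum_trans (U D : Finset G) :
    ∑ c : G, (U.filter (fun u => c⁻¹ * u ∈ D)).card = U.card * D.card := by
  have h1 : ∀ c : G, (U.filter (fun u => c⁻¹ * u ∈ D)).card =
      ∑ u ∈ U, if c⁻¹ * u ∈ D then 1 else 0 := fun c => Finset.card_filter _ _
  simp_rw [h1]
  rw [Finset.sum_comm]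
  have h2 : ∀ u ∈ U, (∑ c : G, if c⁻¹ * u ∈ D then 1 else 0) = D.card := by
    intro u _
    rw [← Finset.card_filter]
    refine Finset.card_bij (fun c _ => c⁻¹ * u) ?_ ?_ ?_
    · intro c hc
      exact (Finset.mem_filter.1 hc).2
    · intro c _ c' _ h
      exact inv_injective (mul_right_cancel h)
    · intro d hd
      refine ⟨u * d⁻¹, ?_, ?_⟩
      · rw [Finset.mem_filter]
        refine ⟨Finset.mem_univ _, ?_⟩
        simpa using hd
      · simp
  rw [Finset.sum_congr rfl h2, Finset.sum_const, smul_eq_mul]

theorem exists_good (U D : Finset G) :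
    ∃ c : G, (U.card : ℝ) * D.card ≤ (U.filter (fun u => c⁻¹ * u ∈ D)).card * Fintype.card G := by
  by_contra hcon
  push Not at hcon
  have h := sum_trans U D
  have h' : (∑ c : G, ((U.filter (fun u => c⁻¹ * u ∈ D)).card : ℝ)) = U.card * D.card := by
    exact_mod_cast h
  have hlt : ∑ c : G, ((U.filter (fun u => c⁻¹ * u ∈ D)).card : ℝ) * Fintype.card G <
      ∑ _c : G, (U.card : ℝ) * D.card :=
    Finset.sum_lt_sum_of_nonempty ⟨1, Finset.mem_univ _⟩ fun c _ => hcon c
  rw [← Finset.sum_mul, h', Finset.sum_const, Finset.card_univ, nsmul_eq_mul] at hlt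
  linarith

/-- the elements which are not covered -/
noncomputable def unc (C D : Finset G) : Finset G :=
  Finset.univ.filter (fun g => ∀ c ∈ C, c⁻¹ * g ∉ D)

theorem greedy (D : Finset G) (t : ℕ) :
    ∃ C : Finset G, C.card ≤ t ∧
      ((unc C D).card : ℝ) ≤ Fintype.card G * (1 - D.card / Fintype.card G) ^ t := by
  have hG : (0 : ℝ) < Fintype.card G := by exact_mod_cast Fintype.card_pos
  have hD : (D.card : ℝ) ≤ Fintype.card G := by exact_mod_cast Finset.card_le_univ D
  induction t with
  | zero =>
    refine ⟨∅, le_rfl, ?_⟩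
    rw [pow_zero, mul_one]
    exact_mod_cast Finset.card_le_univ _
  | succ t ih =>
    obtain ⟨C, hC, hU⟩ := ih
    obtain ⟨c, hc⟩ := exists_good (unc C D) D
    refine ⟨insert c C, (Finset.card_insert_le _ _).trans (by omega), ?_⟩
    have hsplit : ((unc C D).filter (fun u => c⁻¹ * u ∈ D)).card +
        ((unc C D).filter (fun u => ¬ c⁻¹ * u ∈ D)).card = (unc C D).card :=
      Finset.card_filter_add_card_filter_not _
    have heq : unc (insert c C) D = (unc C D).filter (fun u => ¬ c⁻¹ * u ∈ D) := by
      ext g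
      simp only [unc, Finset.mem_filter, Finset.mem_univ, true_and, Finset.mem_insert,
        forall_eq_or_imp]
      tauto
    rw [heq]
    have h1 : (((unc C D).filter (fun u => c⁻¹ * u ∈ D)).card : ℝ) +
        ((unc C D).filter (fun u => ¬ c⁻¹ * u ∈ D)).card = (unc C D).card := by
      exact_mod_cast hsplit
    have h2 : (unc C D).card * ((D.card : ℝ) / Fintype.card G) ≤
        ((unc C D).filter (fun u => c⁻¹ * u ∈ D)).card := by
      rw [mul_div_assoc', div_le_iff₀ hG]
      exact hc
    have h3 : (0 : ℝ) ≤ 1 - D.card / Fintype.card G := by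
      rw [sub_nonneg, div_le_one hG]
      exact hD
    calc (((unc C D).filter (fun u => ¬ c⁻¹ * u ∈ D)).card : ℝ)
        ≤ (unc C D).card * (1 - D.card / Fintype.card G) := by
          rw [mul_sub, mul_one]
          linarith
      _ ≤ (Fintype.card G * (1 - D.card / Fintype.card G) ^ t) *
          (1 - D.card / Fintype.card G) := mul_le_mul_of_nonneg_right hU h3
      _ = Fintype.card G * (1 - D.card / Fintype.card G) ^ (t + 1) := by ring

theorem t_COVER : S_COVER := by
  intro G _ _ _ D hne
  have hG : (0 : ℝ) < Fintype.card G := by exact_mod_cast Fintype.card_pos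
  have hD0 : (0 : ℝ) < D.card := by exact_mod_cast hne.card_pos
  have hD : (D.card : ℝ) ≤ Fintype.card G := by exact_mod_cast Finset.card_le_univ D
  set L : ℝ := Real.log (Fintype.card G) * (Fintype.card G / D.card) with hL
  have hlog : 0 ≤ Real.log (Fintype.card G) :=
    Real.log_nonneg (by exact_mod_cast Fintype.card_pos)
  have hL0 : 0 ≤ L := by positivity
  obtain ⟨C, hC, hU⟩ := greedy D (⌊L⌋₊ + 1)
  refine ⟨C, ?_, ?_⟩
  · have hlt : L < ((⌊L⌋₊ + 1 : ℕ) : ℝ) := by
      push_cast
      exact Nat.lt_floor_add_one L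
    set t := ⌊L⌋₊ + 1 with ht
    have hδ : (0 : ℝ) < D.card / Fintype.card G := by positivity
    have h3 : (0 : ℝ) ≤ 1 - D.card / Fintype.card G := by
      rw [sub_nonneg, div_le_one hG]
      exact hD
    have h4 : (1 - (D.card : ℝ) / Fintype.card G) ^ t ≤
        Real.exp (-((D.card : ℝ) / Fintype.card G) * t) := by
      calc (1 - (D.card : ℝ) / Fintype.card G) ^ t
          ≤ (Real.exp (-((D.card : ℝ) / Fintype.card G))) ^ t :=
            pow_le_pow_left₀ h3 (Real.one_sub_le_exp_neg _) _
        _ = _ := by rw [← Real.exp_nat_mul, mul_comm]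
    have h5 : Real.exp (-((D.card : ℝ) / Fintype.card G) * t) <
        Real.exp (-Real.log (Fintype.card G)) := by
      apply Real.exp_lt_exp.2
      have h6 : (D.card : ℝ) / Fintype.card G * L = Real.log (Fintype.card G) := by
        rw [hL]
        field_simp
      have h7 := mul_lt_mul_of_pos_left hlt hδ
      rw [h6] at h7
      linarith
    have h8 : ((unc C D).card : ℝ) < 1 := by
      calc ((unc C D).card : ℝ) ≤ Fintype.card G * (1 - D.card / Fintype.card G) ^ t := hU
        _ ≤ Fintype.card G * Real.exp (-((D.card : ℝ) / Fintype.card G) * t) :=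
            mul_le_mul_of_nonneg_left h4 hG.le
        _ < Fintype.card G * Real.exp (-Real.log (Fintype.card G)) :=
            mul_lt_mul_of_pos_left h5 hG
        _ = 1 := by
            rw [Real.exp_neg, Real.exp_log hG]
            field_simp
    have h9 : (unc C D).card = 0 := by
      have : (unc C D).card < 1 := by exact_mod_cast h8
      omega
    intro g
    by_contra hg
    push Not at hg
    have hmem : g ∈ unc C D := by
      unfold unc
      rw [Finset.mem_filter]
      refine ⟨Finset.mem_univ _, fun c hc hd => hg c hc _ hd ?_⟩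
      simp
    rw [Finset.card_eq_zero] at h9
    rw [h9] at hmem
    simp at hmem
  · calc (C.card : ℝ) ≤ ((⌊L⌋₊ + 1 : ℕ) : ℝ) := by exact_mod_cast hC
      _ = (⌊L⌋₊ : ℝ) + 1 := by push_cast; ring
      _ ≤ L + 1 := by
        have := Nat.floor_le hL0
        linarith

end Run7.h926.FF
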